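import Pool.Agent.Q183.CE.SkewSL

/-!
# The `C^r` closing lemma for `SL(d, ℝ)`-cocycles over towers on homogeneous fibres

`V n = ℝⁿ`, `DiffM n N r = Diff^r(N)`, `strongTop n N r` is its strong (Whitney) `C^r` topology (the
usual one, `N` being compact), `IsPer G z`: `z` is periodic for `G` (`Pool/Agent/H718R2/G0.lean`);
`NonWand`: nonwandering point (`Pool/Agent/W564/SC/Defs.lean`).

From `Pool/Agent/Y368/SLD/Defs.lean`: `SLd k = SL(k, ℝ)`, `IsSLdAction k n N univ act`: smooth action of
`SL(k, ℝ)` on `N`; `IsLatticePt act z`: the stabiliser `Γ` of `z` is discrete and cocompact, so that the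
orbit of `z` is `SL(k, ℝ) / Γ`, and compact.

From `Pool/Agent/Q183/CE/Skew.lean`:
* `IsProd n N Λ act π R`: `N = (E / Λ) × X`, described by the action `R` of the torus `E / Λ` and the
  projection `π : N → E / Λ`; the action `act` preserves the fibres and commutes with `R`;
* `IsSkewTower n N act F d l s e m π F₀`: this holds for the torus
  `TM d l s e m = 𝕋^d × 𝕋^l × 𝕋^s × 𝕋^e × 𝕋^m`, and `F (t, x) = (F₀ t, A(t) x)`, `A(t) ∈ SL(k, ℝ)`,
  where the homeomorphism of the torus with the lift `F₀` is a tower over a mixed base map.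

From `Pool/Agent/H922R3/CL/DefsB.lean`:
* `VM d l s e m = ℝ^d × ℝ^l × ℝ^s × ℝ^e × ℝ^m`, `ZM d l s e m` its lattice of integer vectors;
* `IsMixedBase H`: `H (b, θ, x) = (h b, θ + ω b, (c_i x_i)_i)` with `h` Hölder conjugate to a
  hyperbolic toral automorphism (as every Anosov diffeomorphism of `𝕋^d` is), `ω` Lipschitz, `c_i`
  circle homeomorphisms conjugate to rotations;
* `MixTower 0 H F₀`: `F₀` is a lift of a homeomorphism of the torus, and
  `F₀ (b, x, y) = (H b, (g_i (b, x_i))_{i < e}, (y_i + φ_i (b, x, y_0, …, y_{i-1}))_{i < m})`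
  with increasing `g_i (b, ·)`;
* `MixNonwand F₀ t`: `t` is nonwandering for the map of the torus.
-/

set_option autoImplicit false

open scoped Manifold ContDiff Topology

namespace Pool.Agent.Results.MP_1e8d1a_an.SLdCocyclesOverTowers

open Pool.Agent.H718R2.G Pool.Agent.W564.SC Pool.Agent.Y368.SLD Pool.Agent.Q183.CE

/-- Let `X` be a closed manifold with a smooth action of `SL(k, ℝ)`, `k ≥ 2` (for example
`X = SL(k, ℝ) / Γ`, `Γ` a cocompact lattice), let `T` be a torus, `N = T × X`, and let `F ∈ Diff^r(N)`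
be a skew product `F (t, x) = (F₀ t, A(t) x)` with an arbitrary cocycle `A : T → SL(k, ℝ)`, whatever its
Lyapunov exponents, where `F₀` is a tower over a mixed base map: `e` families of orientation
preserving circle homeomorphisms, without any domination, and `m` circle extensions by translations,
driven by the product of circle homeomorphisms conjugate to rotations with an isometric toral extension
of an Anosov diffeomorphism. Then the conclusion of the `C^r` closing lemma holds for `F` at every
nonwandering point `z = (t, x)`, and even at every `z = (t, x)` with `t` nonwandering for `F₀`, provided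
that `x` has a discrete cocompact stabiliser in `SL(k, ℝ)` (always the case if `X = SL(k, ℝ) / Γ`). -/
theorem result {k n : ℕ} (hk : 2 ≤ k) {N : Type*} [TopologicalSpace N] [T2Space N] [CompactSpace N]
    [ChartedSpace (V n) N] [IsManifold (𝓡 n) ∞ N] (r : ℕ∞) (hr : 1 ≤ r)
    (act : SLd k → N → N) (hact : IsSLdAction k n N Set.univ act)
    (F : DiffM n N r) (d l s e m : ℕ) (π : N → TM d l s e m)
    (F₀ : Pool.Agent.H922R3.CL.VM d l s e m ≃ Pool.Agent.H922R3.CL.VM d l s e m)
    (h : IsSkewTower n N act F d l s e m π F₀)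
    (z : N) (hlat : IsLatticePt act z) (hz : NonWand F z ∨ ∃ t, π z = QuotientAddGroup.mk t ∧
      Pool.Agent.H922R3.CL.MixNonwand F₀ t) :
    ∀ U : Set (DiffM n N r), IsOpen[strongTop n N r] U → F ∈ U → ∃ G ∈ U, IsPer G z := by
  obtain ⟨R, hP, A, hF⟩ := h.prod
  obtain ⟨H, hH, hF₀⟩ := h.tower
  have hlift : ∀ (y : N) (t : Pool.Agent.H922R3.CL.VM d l s e m),
      π y = QuotientAddGroup.mk t → π (F y) = QuotientAddGroup.mk (F₀ t) := by
    intro y t hy
    obtain ⟨x, hx, rfl⟩ := exists_fib hP y t hy
    rw [hF t x hx, hP.inv, hP.cover, hx, zero_add]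
  obtain ⟨t, ht, hnw⟩ : ∃ t : Pool.Agent.H922R3.CL.VM d l s e m,
      π z = QuotientAddGroup.mk t ∧ Pool.Agent.H922R3.CL.MixNonwand F₀ t := by
    rcases hz with hz | hz
    · obtain ⟨t, ht⟩ := QuotientAddGroup.mk_surjective (π z)
      exact ⟨t, ht.symm, nonwand_prod hP.cont F F₀ hlift z t ht.symm hz⟩
    · exact hz
  exact closable_of_skewSL hk r hr hact hP F F₀ A hF z hlat t ht (mixed_transl hH hF₀ hnw)

end Pool.Agent.Results.MP_1e8d1a_an.SLdCocyclesOverTowers
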