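import Pool.Agent.Q183.CE.Mixed

/-!
# The `C^r` closing lemma for equivariant diffeomorphisms over towers of circle diffeomorphisms

`V n = ℝⁿ`, `DiffM n N r = Diff^r(N)`, `strongTop n N r` is its strong (Whitney) `C^r` topology (the
usual one, `N` being compact), `IsPer G z`: `z` is periodic for `G` (`Pool/Agent/H718R2/G0.lean`);
`IsLieAction n N ι univ act`: smooth action on `N` of a compact Lie group
(`Pool/Agent/TH80/CLX/Defs.lean`); `NonWand`: nonwandering point (`Pool/Agent/W564/SC/Defs.lean`).

`IsTorusQuot n N Λ act π R` (`Pool/Agent/Q183/CE/Defs.lean`): the orbit space `N / G` is the torus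
`E / Λ`, with projection `π`, and the translations of this torus lift to a smooth family `R` of
diffeomorphisms which commute with the action. Such an `R` always exists if the action is free, i.e. for
principal bundles over tori (by a connection). `OverMixedTower n N act F d l s e m π F₀`
(`Pool/Agent/Q183/CE/Mixed.lean`): this holds for `TM d l s e m = 𝕋^d × 𝕋^l × 𝕋^s × 𝕋^e × 𝕋^m`, and
`F` induces on it the map with the lift `F₀`, a tower over a mixed base map.

From `Pool/Agent/H922R3/CL/DefsB.lean`:
* `VM d l s e m = ℝ^d × ℝ^l × ℝ^s × ℝ^e × ℝ^m`, `ZM d l s e m` its lattice of integer vectors;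
* `IsMixedBase H`: `H (b, θ, x) = (h b, θ + ω b, (c_i x_i)_i)` with `h` Hölder conjugate to a
  hyperbolic toral automorphism (as every Anosov diffeomorphism of `𝕋^d` is), `ω` Lipschitz, `c_i`
  circle homeomorphisms conjugate to rotations;
* `MixTower 0 H F₀`: `F₀` is a lift of a homeomorphism of the torus, and
  `F₀ (b, x, y) = (H b, (g_i (b, x_i))_{i < e}, (y_i + φ_i (b, x, y_0, …, y_{i-1}))_{i < m})`
  with increasing `g_i (b, ·)`;
* `MixNonwand F₀ t`: `t` is nonwandering for the map of the torus.
-/

set_option autoImplicit false

open scoped Manifold ContDiff Topology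

namespace Pool.Agent.Results.MP_1e8d1a_an.TorusOrbitSpaces

open Pool.Agent.H718R2.G Pool.Agent.W564.SC Pool.Agent.TH80.CLX Pool.Agent.Q183.CE

/-- Let `N` be a closed manifold with a smooth action of a compact Lie group `G` whose orbit space is a
torus `𝕋^d × 𝕋^l × 𝕋^s × 𝕋^e × 𝕋^m`, the translations of which lift to `N` (for example a principal
bundle over the torus, with an arbitrary compact structure group). Let `F ∈ Diff^r(N)` commute with `G`, and let the homeomorphism induced by `F` on the orbit space be a tower over a mixed base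
map: `e` families of orientation preserving circle homeomorphisms, without any domination, and `m`
circle extensions by translations, driven by the product of circle homeomorphisms conjugate to
rotations with an isometric toral extension of an Anosov diffeomorphism. Then the conclusion of the
`C^r` closing lemma holds for `F` at every nonwandering point, and even at every point over a
nonwandering point of the map of the orbit space. -/
theorem result {n : ℕ} {N : Type*} [TopologicalSpace N] [T2Space N] [CompactSpace N]
    [ChartedSpace (V n) N] [IsManifold (𝓡 n) ∞ N] (r : ℕ∞) (hr : 1 ≤ r)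
    {G : Type} [Group G] [TopologicalSpace G] [CompactSpace G] {q : ℕ}
    (ι : G →* Matrix (Fin q) (Fin q) ℂ) (act : G → N → N) (hact : IsLieAction n N ι Set.univ act)
    (F : DiffM n N r) (hF : ∀ g y, F (act g y) = act g (F y))
    (d l s e m : ℕ) (π : N → TM d l s e m)
    (F₀ : Pool.Agent.H922R3.CL.VM d l s e m ≃ Pool.Agent.H922R3.CL.VM d l s e m)
    (h : OverMixedTower n N act F d l s e m π F₀)
    (z : N) (hz : NonWand F z ∨ ∃ t, π z = QuotientAddGroup.mk t ∧
      Pool.Agent.H922R3.CL.MixNonwand F₀ t) :
    ∀ U : Set (DiffM n N r), IsOpen[strongTop n N r] U → F ∈ U → ∃ G ∈ U, IsPer G z := by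
  obtain ⟨R, hR⟩ := h.quot
  obtain ⟨H, hH, hF₀⟩ := h.tower
  obtain ⟨t, ht, hnw⟩ : ∃ t : Pool.Agent.H922R3.CL.VM d l s e m,
      π z = QuotientAddGroup.mk t ∧ Pool.Agent.H922R3.CL.MixNonwand F₀ t := by
    rcases hz with hz | hz
    · obtain ⟨t, ht⟩ := QuotientAddGroup.mk_surjective (π z)
      exact ⟨t, ht.symm, nonwand_base hR F F₀ h.lift z t ht.symm hz⟩
    · exact hz
  exact closable_of_transl r hr hact hR F hF F₀ h.lift z t ht (mixed_transl hH hF₀ hnw)

end Pool.Agent.Results.MP_1e8d1a_an.TorusOrbitSpaces
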